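import Mathlib

set_option autoImplicit false

namespace Pool.Agent.Results.MP_682377_al.Counterexample

open CategoryTheory TrivSqZeroExt Polynomial

section
variable (R : Type) [CommRing R]

/-- `E` is `n`-presented: there is an exact sequence `Fₙ → ⋯ → F₀ → E → 0` of finitely generated
free modules (built one step at a time). -/
def Pres : ℕ → (E : Type) → [AddCommGroup E] → [Module R E] → Prop
  | 0, E, _, _ => Module.Finite R E
  | n + 1, E, _, _ => ∃ (k : ℕ) (f : (Fin k → R) →ₗ[R] E), Function.Surjective f ∧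
      Pres n (LinearMap.ker f)

/-- `M` has a resolution `0 → Pₘ → ⋯ → P₀ → M → 0` by finitely generated projective modules. -/
def FinRes : ℕ → (M : Type) → [AddCommGroup M] → [Module R M] → Prop
  | 0, M, _, _ => Module.Finite R M ∧ Module.Projective R M
  | m + 1, M, _, _ => ∃ (P : Type) (_ : AddCommGroup P) (_ : Module R P) (f : P →ₗ[R] M),
      Module.Finite R P ∧ Module.Projective R P ∧ Function.Surjective f ∧ FinRes m (LinearMap.ker f)

/-- Weak `(n, d)`-ring in the sense of Mahdou. -/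
def WeakMahdou (n d : ℕ) : Prop :=
  ∀ I : Ideal R, Pres R n (R ⧸ I) → projectiveDimension (ModuleCat.of R (R ⧸ I)) ≤ d

/-- The small finitistic dimension. -/
noncomputable def fPD : WithBot ℕ∞ :=
  ⨆ (M : ModuleCat.{0} R) (_ : ∃ m, FinRes R m M), projectiveDimension M

variable {R}

lemma Pres.fp : ∀ (n : ℕ) (E : Type) [AddCommGroup E] [Module R E], Pres R (n + 1) E →
    Module.FinitePresentation R E
  | 0, _, _, _, ⟨_, f, h, h'⟩ => Module.finitePresentation_of_surjective f h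
      (Module.Finite.iff_fg.mp h')
  | n + 1, _, _, _, ⟨_, f, h, h'⟩ => have := Pres.fp n _ h'
      Module.finitePresentation_of_surjective f h (Module.Finite.iff_fg.mp inferInstance)

lemma fp_ideal {n : ℕ} (I : Ideal R) (h : Pres R (n + 2) (R ⧸ I)) :
    Module.FinitePresentation R I := by
  obtain ⟨k, f, hf, h⟩ := h
  have := Pres.fp n _ h
  obtain ⟨g, hg⟩ := Module.projective_lifting_property I.mkQ f I.mkQ_surjective
  have hg' : ∀ v, Ideal.Quotient.mk I (g v) = f v := fun v => LinearMap.congr_fun hg v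
  obtain ⟨u, hu⟩ := hf 1
  let γ : (LinearMap.ker f × R) →ₗ[R] I := LinearMap.codRestrict I
    ((g ∘ₗ (LinearMap.ker f).subtype).coprod (LinearMap.toSpanSingleton R R (1 - g u))) fun x =>
      Ideal.Quotient.eq_zero_iff_mem.mp (by simp [hg', hu])
  let δ : (Fin k → R) →ₗ[R] (LinearMap.ker f × R) := (LinearMap.codRestrict _
    (LinearMap.id - LinearMap.toSpanSingleton R _ u ∘ₗ g) fun v => by
      simp [hu, ← hg' v, Algebra.smul_def (A := R ⧸ I)]).prod (-g)
  refine Module.finitePresentation_of_surjective γ (fun i => ⟨(⟨i.1 • u, by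
    simp [hu, Algebra.smul_def (A := R ⧸ I), Ideal.Quotient.eq_zero_iff_mem]⟩, i), by
      ext; simp [γ]; ring⟩) ?_
  suffices LinearMap.ker γ = Submodule.map δ ⊤ from this ▸ Module.Finite.fg_top.map δ
  ext ⟨⟨w, hw⟩, r⟩
  simp only [LinearMap.mem_ker, Submodule.map_top, LinearMap.mem_range, Subtype.ext_iff,
    Prod.ext_iff]
  refine ⟨fun h => ?_, fun ⟨v, h1, h2⟩ => ?_⟩
  · have : g (w - r • u) = -r := by simp [γ] at h ⊢; linear_combination h
    exact ⟨w - r • u, by simp [δ, this, -map_sub], by simp [δ, this, -map_sub]⟩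
  · simp [δ] at h1 h2
    simp [γ, ← h1, ← h2]; ring

lemma unimodular (v : Fin 2 → R) (hv : ∀ r : R, r • v = 0 → r = 0) (h : fPD R ≤ (0 : ℕ)) :
    ∃ r s, v 0 * r + v 1 * s = 1 := by
  let f := LinearMap.toSpanSingleton R _ v
  have hf : Function.Injective f := (injective_iff_map_eq_zero _).mpr hv
  have h1 := (le_iSup₂ (f := fun (M : ModuleCat.{0} R) (_ : ∃ m, FinRes R m M) =>
    projectiveDimension M) (.of R ((Fin 2 → R) ⧸ LinearMap.range f)) ⟨1, _, _, _,
      (LinearMap.range f).mkQ, inferInstance, inferInstance, Submodule.mkQ_surjective _, by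
        have e := (LinearEquiv.ofInjective f hf).trans
          (LinearEquiv.ofEq _ _ (Submodule.ker_mkQ (LinearMap.range f)).symm)
        exact ⟨.equiv e, .of_equiv e⟩⟩).trans h
  rw [projectiveDimension_le_iff, ← projective_iff_hasProjectiveDimensionLE_zero,
    ← IsProjective.iff_projective] at h1
  obtain ⟨s, hs⟩ := Module.projective_lifting_property (LinearMap.range f).mkQ LinearMap.id
    (Submodule.mkQ_surjective _)
  have h2 : ∀ i : Fin 2, ∃ r : R,
      r • v = Pi.single i 1 - s (Submodule.Quotient.mk (Pi.single i 1)) :=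
    fun i => (Submodule.Quotient.eq _).mp (LinearMap.congr_fun hs _).symm
  choose r hr using h2
  refine ⟨r 0, r 1, hf (Eq.trans ?_ (one_smul R v).symm)⟩
  have h4 : v 0 • (Pi.single 0 1 : Fin 2 → R) + v 1 • Pi.single 1 1 = v := by
    ext1 i; fin_cases i <;> simp
  change (v 0 * r 0 + v 1 * r 1) • v = v
  rw [add_smul, mul_smul, mul_smul, hr, hr, smul_sub, smul_sub, sub_add_sub_comm, ← map_smul,
    ← map_smul, ← map_add, ← Submodule.Quotient.mk_smul, ← Submodule.Quotient.mk_smul,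
    ← Submodule.Quotient.mk_add, h4, (Submodule.Quotient.mk_eq_zero (LinearMap.range f)).mpr
      (LinearMap.mem_range.mpr ⟨1, one_smul _ _⟩),
    map_zero, sub_zero]

end

section
variable {N : Type} [AddCommGroup N] [Module ℤ[X] N] [Module ℤ[X]ᵐᵒᵖ N] [IsCentralScalar ℤ[X] N]
  (π : ∀ a : ℤ[X], ℕ → N →ₗ[ℤ[X]] ℤ[X] ⧸ Ideal.span {a})

lemma trivial_of_fp (h1π : ∀ a t, ∃ x : N, a • x = 0 ∧ π a t x = 1)
    (h2π : ∀ x : N, {t | ∃ a, π a t x ≠ 0}.Finite)
    (I : Ideal (TrivSqZeroExt ℤ[X] N)) [Module.FinitePresentation (TrivSqZeroExt ℤ[X] N) I] :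
    I = ⊥ ∨ I = ⊤ := by
  classical
  obtain ⟨n, m, φ, ψ, hφ, h⟩ := Module.FinitePresentation.exists_fin' (TrivSqZeroExt ℤ[X] N) I
  let e : Fin n → TrivSqZeroExt ℤ[X] N := fun i => φ fun j => if i = j then 1 else 0
  let b : Fin m → Fin n → TrivSqZeroExt ℤ[X] N := fun i => ψ fun j => if i = j then 1 else 0
  have h1 : ∀ v, (φ v : TrivSqZeroExt ℤ[X] N) = ∑ i, v i * e i := fun v => by
    simp [LinearMap.pi_apply_eq_sum_univ φ v, e]
  have h2 : ∀ j, ∑ i, b j i * e i = 0 := fun j => by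
    rw [← h1, h.apply_apply_eq_zero]; rfl
  obtain ⟨t, ht⟩ :=
    (Set.finite_iUnion fun p : Fin m × Fin n => h2π (b p.1 p.2).snd).exists_notMem
  have key : ∀ i₀ f, f ∣ (e i₀).fst → ∃ (μ : Fin m → ℤ[X]) (w : Fin n → ℤ[X]), ∀ i,
      (Pi.single i₀ 1 : Fin n → ℤ[X]) i = ∑ j, μ j * (b j i).fst + w i * f := by
    rintro i₀ f ⟨g, hf⟩
    obtain ⟨x, hx, hx'⟩ := h1π f t
    obtain ⟨c, hc⟩ := (h (Pi.single i₀ (inr x))).mp (Subtype.ext (by
      rw [h1, Finset.sum_eq_single i₀ (by simp +contextual) (by simp)]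
      ext1
      · simp
      simp [hf, mul_smul, smul_comm f g, hx]))
    choose μ hμ using fun j => Ideal.Quotient.mk_surjective (π f t (c j).snd)
    refine ⟨μ, ?_⟩
    simp only [← sub_eq_iff_eq_add', eq_comm (b := _ * f), ← Classical.skolem (p := fun i w =>
      w * f = (Pi.single i₀ 1 : Fin n → ℤ[X]) i - ∑ j, μ j * (b j i).fst),
      ← Ideal.mem_span_singleton', ← Ideal.Quotient.eq]
    intro i
    have h3 : ∀ j, π f t (b j i).snd = 0 := fun j => by_contra fun h => ht
      (Set.mem_iUnion.mpr ⟨(j, i), f, h⟩)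
    have h4 := congrArg (fun v => π f t (v i).snd) hc
    simp only [LinearMap.pi_apply_eq_sum_univ ψ c, Finset.sum_apply, Pi.smul_apply, smul_eq_mul,
      snd_sum, snd_mul, map_sum, map_add, op_smul_eq_smul, map_smul] at h4
    simp only [b] at h3
    simp only [h3, smul_zero, zero_add, ← hμ, Algebra.smul_def] at h4
    simp only [map_sum, map_mul, b, mul_comm (Ideal.Quotient.mk _ (μ _))]
    refine Eq.trans ?_ h4.symm
    by_cases hi : i = i₀ <;> simp [hi, hx']
  by_cases h0 : ∀ i, (e i).fst = 0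
  · refine .inl (eq_bot_iff.mpr fun x hx => ?_)
    obtain ⟨v, hv⟩ := hφ ⟨x, hx⟩
    have : ∀ i₀, e i₀ = 0 := fun i₀ => by
      obtain ⟨μ, w, h3⟩ := key i₀ 0 (by simp [h0])
      have : ∑ i, (Pi.single i₀ 1 : Fin n → ℤ[X]) i • (e i).snd =
          ∑ j, μ j • (∑ i, b j i * e i).snd := by
        simp only [h3, snd_sum, snd_mul, h0, Finset.smul_sum, mul_zero, add_zero, Finset.sum_smul,
          MulOpposite.op_zero, zero_smul, mul_smul]
        exact Finset.sum_comm
      ext1
      · exact h0 _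
      simpa [h2, Pi.single_apply] using this
    simpa [this, hv] using h1 v
  push Not at h0
  obtain ⟨i₀, h0⟩ := h0
  obtain ⟨μ, w, h3⟩ := key i₀ _ dvd_rfl
  refine .inr (I.eq_top_of_isUnit_mem (φ fun i => inl (w i)).2 (isUnit_iff_isUnit_fst.mpr
    (IsUnit.of_mul_eq_one 1 (mul_right_cancel₀ h0 ?_))))
  have : ∑ i, (Pi.single i₀ 1 : Fin n → ℤ[X]) i * (e i).fst = ∑ j, μ j * (∑ i, b j i * e i).fst +
      (∑ i, w i * (e i).fst) * (e i₀).fst := by
    simp only [h3, fst_sum, fst_mul, Finset.mul_sum, add_mul, Finset.sum_mul,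
      Finset.sum_add_distrib, mul_assoc, mul_right_comm _ (e i₀).fst, mul_comm (e i₀).fst]
    rw [Finset.sum_comm]
  simpa [h2, Pi.single_apply, h1, fst_sum] using this.symm

lemma not_le (h3π : ∀ x : N, (∀ a t, π a t x = 0) → x = 0) :
    ¬ fPD (TrivSqZeroExt ℤ[X] N) ≤ (0 : ℕ) := fun h => by
  let v : Fin 2 → TrivSqZeroExt ℤ[X] N := ![inl 2, inl X]
  have hf : ∀ r : TrivSqZeroExt ℤ[X] N, r • v = 0 → r = 0 := fun r hr => by
    have h0 : r * inl 2 = 0 := congrFun hr 0
    have h1 : r * inl X = 0 := congrFun hr 1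
    have h2 : r.fst = 0 := by simpa using congrArg fst h1
    ext1
    · exact h2
    refine h3π _ fun a t => ?_
    obtain ⟨y, hy⟩ := Ideal.Quotient.mk_surjective (π a t r.snd)
    have key : ∀ c, r * inl c = 0 → a ∣ c * y := fun c hc => by
      rw [← Ideal.mem_span_singleton, ← Ideal.Quotient.eq_zero_iff_mem, map_mul, hy]
      change c • π a t r.snd = 0
      simpa [h2] using congrArg (fun z => π a t z.snd) hc
    have h3 := key _ h0
    have h4 := key _ h1
    rw [← hy]
    refine Ideal.Quotient.eq_zero_iff_mem.mpr (Ideal.mem_span_singleton.mpr ?_)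
    rcases eq_or_ne a 0 with rfl | ha
    · simpa using h4
    obtain ⟨p, hp⟩ := h3
    obtain ⟨q, hq⟩ := h4
    obtain ⟨s, rfl⟩ := (prime_X.dvd_or_dvd (a := 2) (b := q) ⟨p, mul_left_cancel₀ ha (by
      linear_combination X * hp - 2 * hq)⟩).resolve_left (by simp [X_dvd_iff])
    exact ⟨s, mul_left_cancel₀ X_ne_zero (by linear_combination hq)⟩
  obtain ⟨r, s, h3⟩ := unimodular v hf h
  have h4 := congrArg (fun z => z.fst.eval 0) h3
  simp [v] at h4
  omega

end

/-- A weak `(n, 0)`-ring in the sense of Mahdou, for all `n ≥ 2`, with `fPD > 0`. -/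
theorem result : ∃ (R : Type) (_ : CommRing R), (∀ n, 2 ≤ n → WeakMahdou R n 0) ∧
    ¬ fPD R ≤ (0 : ℕ) := by
  classical
  let N := Π₀ s : ℤ[X] × ℕ, ℤ[X] ⧸ Ideal.span {s.1}
  let π : ∀ a : ℤ[X], ℕ → N →ₗ[ℤ[X]] ℤ[X] ⧸ Ideal.span {a} := fun a t => DFinsupp.lapply (a, t)
  refine ⟨TrivSqZeroExt ℤ[X] N, inferInstance, fun n hn I h => ?_,
    not_le π fun x h => DFinsupp.ext fun s => h s.1 s.2⟩
  obtain ⟨n, rfl⟩ := Nat.exists_eq_add_of_le' hn
  rw [projectiveDimension_le_iff, ← projective_iff_hasProjectiveDimensionLE_zero,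
    ← IsProjective.iff_projective]
  rcases @trivial_of_fp _ _ _ _ _ π (fun a t => ⟨DFinsupp.single (a, t) 1, by
      rw [← DFinsupp.single_smul, DFinsupp.single_eq_zero]
      exact Ideal.Quotient.eq_zero_iff_mem.mpr (Ideal.mem_span_singleton'.mpr ⟨1, mul_comm _ _⟩),
      DFinsupp.single_eq_same⟩) (fun x => (x.support.finite_toSet.image Prod.snd).subset
      fun t ⟨a, h⟩ => ⟨(a, t), DFinsupp.mem_support_iff.mpr h, rfl⟩) I (fp_ideal I h) with rfl | rfl
  · exact .of_equiv (Submodule.quotEquivOfEqBot _ rfl).symm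
  · infer_instance

end Pool.Agent.Results.MP_682377_al.Counterexample
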